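import Mathlib
import Pool.Agent.H812R4.Groupoid
import Pool.Agent.H812R4.NotFDC
import Pool.Agent.H812R4.DAD

/-!
# Finite dynamic asymptotic dimension does not imply finite dynamical complexity

The example is the transformation groupoid of the affine action of `Γ = ℤ² ⋊ D₄` (integer
translations and signed permutations) on `ℤ₂ × ℤ₂` (2-adic integers).

* Dynamic asymptotic dimension at most two: for `q = 2^k` large the plane modulo `8 q` is covered
  by three `D₄`-invariant families of separated squares.
* No finite dynamical complexity: for every cover of the unit space by two open sets, a
  game-of-Y lemma in the triangle `0 ≤ y ≤ x ≤ 2^k` gives a monochromatic connected set touching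
  the three sides; the three reflections in the sides generate `2^(k+1) ℤ² ⋊ D₄`, so one of the
  two generated subgroupoids contains a self-similar copy of the whole groupoid.
-/

namespace Pool.Agent.Results.MP_153b2f_an.FiniteDADNotFDC

open H812R4

/-- There is an etale groupoid of dynamic asymptotic dimension at most two which does not have
finite dynamical complexity (in either reading of relative compactness in the definition of
decomposability). -/
theorem result : ∃ G : EtaleGroupoid, G.DADLE 2 ∧ ¬ G.FDC ∧ ¬ G.FDCRel :=
  ⟨GG, DADLE_two, not_FDC, not_FDCRel⟩

end Pool.Agent.Results.MP_153b2f_an.FiniteDADNotFDC
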